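import Pool.Agent.Helper74.NX2.LpArithCore
import Pool.Agent.Helper92.NX2.Bc
import Pool.Agent.Helper91.NX2.AlArith
import Pool.Agent.Helper30.NX2.LocArith

/-!
# Project NX2, A26: block phases along progressions without major frequencies
-/

set_option autoImplicit false

open Finset
open scoped BigOperators ComplexConjugate

namespace Pool.Agent.Helper67.NX2

open Pool.Agent.Helper57.NX

noncomputable section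

/-- **A26.** Block phases along progressions without major frequencies. -/
theorem lp_arith (hES : ES0) (m : ℕ) (c : Fin (m + 1) → ℝ) (hc : Ex c) (d : ℕ)
    (hd : c (Fin.last m) = d) (s : ℝ) (hs0 : 0 < s) (hs : s ≤ 1)
    (hT : ∀ ε : ℝ, 0 < ε → TopPm m c s ε) (hD : ∀ ε : ℝ, 0 < ε → DsPm m c s ε) :
    ∃ x0 : ℝ, 0 < x0 ∧ ∃ C : ℕ, ∃ σ : ℝ, 0 < σ ∧ ∃ D0 : ℝ,
    ∀ (S : Sys (m + 1)) (N : ℕ) [NeZero N] (lam : ℕ), D0 ≤ S.D → IG S c N x0 lam →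
    ∀ δ : ℝ, S.D ^ (-σ) ≤ δ → δ ≤ 1 / 2 → (lam : ℝ) ≤ δ⁻¹ →
    ∀ (p : ℕ) [NeZero p], p.Prime → N = S.Q * p → ∀ q : ℕ, 1 ≤ q → (q : ℝ) ≤ δ⁻¹ →
    ∀ X : ℕ, 1 ≤ X → S.D ^ (s - σ) ≤ (X : ℝ) → (X : ℝ) * δ⁻¹ ^ C ≤ S.D ^ s →
    ∀ (f0 : ZMod N → ℂ) (f : Fin m → ZMod N → ℂ), Adm δ⁻¹ S.Q f0 → (∀ i, Adm δ⁻¹ S.Q (f i)) →
    ∀ (r : ZMod p) (cc : ℕ → ℕ → ℂ) (φ : ℕ → ℕ → ℝ), (∀ e j, ‖cc e j‖ ≤ 1) →
    (∀ e j, cc e j ≠ 0 → ∀ q' : ℕ, 1 ≤ q' → (q' : ℝ) ≤ δ⁻¹ ^ C →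
      δ⁻¹ ^ C / X < dint (q' * φ e j)) →
    ‖form S c 1 f0 (Fin.snoc (α := fun _ => ZMod N → ℂ) f (apb S.Q q X r cc φ))‖ < δ :=
  lp_arith_core m c hc d hd s hs (bc m)
    (fun ε hε => al_arith m c hc d hd s hs0
      (by have := hc.two (Fin.last m); rw [hd] at this; linarith) hT ε hε)
    (loc_arith hES m c hc d hd s hs0 hs hD)

end

end Pool.Agent.Helper67.NX2
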