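import Pool.Agent.Helper67.NX2.Defs

/-!
# Project NX2, module A26: block phases along progressions without major frequencies
-/

set_option autoImplicit false

open Finset
open scoped BigOperators ComplexConjugate

namespace Pool.Agent.Helper67.NX2

open Pool.Agent.Helper57.NX

noncomputable section

/-- The conclusion of `bc` (module A22). -/
def BcC (m : ℕ) : Prop :=
  ∃ C : ℕ, ∀ (c : Fin (m + 1) → ℝ) (d : ℕ) (_ : c (Fin.last m) = d)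
    (S : Sys (m + 1)) (N : ℕ) [NeZero N] (lam : ℕ) (x : ℝ), 1 ≤ S.D → IG S c N x lam →
    ∀ δ : ℝ, 0 < δ → δ ≤ 1 / 2 → δ⁻¹ ^ C ≤ S.Q →
    ∀ (f0 : ZMod N → ℂ) (f : Fin m → ZMod N → ℂ) (g : ZMod N → ℂ),
    Adm δ⁻¹ S.Q f0 → (∀ i, Adm δ⁻¹ S.Q (f i)) → (∀ x, ‖g x‖ ≤ 1) →
    δ ≤ ‖form S c 1 f0 (Fin.snoc (α := fun _ => ZMod N → ℂ) f g)‖ →
    ∃ e : ℕ, e < S.Q ∧ ∃ f0' : ZMod N → ℂ, Adm (δ⁻¹ ^ 3) S.Q f0' ∧
      δ ^ C ≤ ‖form S c 1 f0' (Fin.snoc (α := fun _ => ZMod N → ℂ) f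
        (fun x => g ((S.Q * (x.val / S.Q) + e : ℕ) : ZMod N)))‖

/-- The conclusion of `al_arith` (module A24). -/
def AlC (m : ℕ) (c : Fin (m + 1) → ℝ) (s ε : ℝ) : Prop :=
  ∃ x0 : ℝ, 0 < x0 ∧ ∃ C : ℕ, ∃ σ : ℝ, 0 < σ ∧ ∃ D0 : ℝ,
    ∀ (S : Sys (m + 1)) (N : ℕ) [NeZero N] (lam : ℕ), D0 ≤ S.D → IG S c N x0 lam →
    ∀ δ : ℝ, S.D ^ (-σ) ≤ δ → δ ≤ 1 / 2 → (lam : ℝ) ≤ δ⁻¹ →
    ∀ (p : ℕ) [NeZero p], p.Prime → N = S.Q * p → ∀ q : ℕ, 1 ≤ q → (q : ℝ) ≤ δ⁻¹ →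
    ∀ X : ℕ, 1 ≤ X → S.D ^ (s - σ) ≤ (X : ℝ) →
    ∀ q0 : ℕ, 1 ≤ q0 → (X : ℝ) * q0 * (S.Q * q) ≤ S.P (Fin.last m) * S.D ^ (-ε) →
    ∀ (f0 : ZMod N → ℂ) (f : Fin m → ZMod N → ℂ), Adm δ⁻¹ S.Q f0 → (∀ i, Adm δ⁻¹ S.Q (f i)) →
    ∀ (r : ZMod p) (cc : ℕ → ℂ) (φ : ℕ → ℝ), (∀ j, ‖cc j‖ ≤ 1) →
    δ ≤ ‖form S c 1 f0 (Fin.snoc (α := fun _ => ZMod N → ℂ) f
      (blk S.Q fun y : ZMod p => bphase X r cc φ (y * (q : ZMod p)⁻¹)))‖ →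
    ∃ (cc' : ℕ → ℂ) (θ : ℕ → ℝ), (∀ j, cc' j = cc j ∨ cc' j = 0) ∧
      (∀ j, cc' j ≠ 0 → dint (φ j - θ (j / q0)) ≤ δ⁻¹ ^ C / X) ∧
      δ ^ C ≤ ‖form S c 1 f0 (Fin.snoc (α := fun _ => ZMod N → ℂ) f
        (blk S.Q fun y : ZMod p => bphase X r cc' φ (y * (q : ZMod p)⁻¹)))‖

/-- The conclusion of `loc_arith` (module A25), with the `X`-range in monotone form. -/
def LocC (m : ℕ) (c : Fin (m + 1) → ℝ) (s : ℝ) : Prop :=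
  ∃ ε0 : ℝ, 0 < ε0 ∧ ∀ ε : ℝ, 0 < ε → ε ≤ ε0 → ∀ n : ℕ,
    ∃ x0 : ℝ, 0 < x0 ∧ ∃ C : ℕ, ∃ σ : ℝ, 0 < σ ∧ ∃ D0 : ℝ,
    ∀ (S : Sys (m + 1)) (N : ℕ) [NeZero N] (lam : ℕ), D0 ≤ S.D → IG S c N x0 lam →
    ∀ δ : ℝ, S.D ^ (-σ) ≤ δ → δ ≤ 1 / 2 → (lam : ℝ) ≤ δ⁻¹ →
    ∀ (p : ℕ) [NeZero p], p.Prime → N = S.Q * p → ∀ q : ℕ, 1 ≤ q → (q : ℝ) ≤ δ⁻¹ →
    ∀ X : ℕ, 1 ≤ X → S.D ^ (s - σ) ≤ (X : ℝ) → (X : ℝ) * δ⁻¹ ^ 4 ≤ S.D ^ s →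
    ∀ q0 : ℕ, 1 ≤ q0 → S.P (Fin.last m) * S.D ^ (-ε) / 2 ≤ (X : ℝ) * q0 * (S.Q * q) →
      (X : ℝ) * q0 * (S.Q * q) ≤ S.P (Fin.last m) * S.D ^ (-ε) →
    ∀ (f0 : ZMod N → ℂ) (f : Fin m → ZMod N → ℂ), Adm δ⁻¹ S.Q f0 → (∀ i, Adm δ⁻¹ S.Q (f i)) →
    ∀ (r : ZMod p) (cc : ℕ → ℂ) (φ θ : ℕ → ℝ), (∀ j, ‖cc j‖ ≤ 1) →
    (∀ j, cc j ≠ 0 → dint (φ j - θ (j / q0)) ≤ δ⁻¹ ^ n / X) →
    δ ^ n ≤ ‖form S c 1 f0 (Fin.snoc (α := fun _ => ZMod N → ℂ) f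
      (blk S.Q fun y : ZMod p => bphase X r cc φ (y * (q : ZMod p)⁻¹)))‖ →
    ∃ j q' : ℕ, cc j ≠ 0 ∧ 1 ≤ q' ∧ (q' : ℝ) ≤ δ⁻¹ ^ C ∧ dint (q' * φ j) ≤ δ⁻¹ ^ C / X

private theorem goodMonoLp {m : ℕ} {S : Sys m} {c : Fin m → ℝ} {N : ℕ} {x y : ℝ} (hxy : x ≤ y)
    (hD : 1 ≤ S.D) (h : Good S c N x) : Good S c N y where
  ρ0 := h.ρ0
  ρ1 := h.ρ1
  Q1 := h.Q1
  Q2 := h.Q2
  P1 i := le_trans (mul_le_mul_of_nonneg_left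
    (Real.rpow_le_rpow_of_exponent_le hD (by linarith)) (Nat.cast_nonneg _)) (h.P1 i)
  P2 i := le_trans (h.P2 i) (mul_le_mul_of_nonneg_left
    (Real.rpow_le_rpow_of_exponent_le hD (by linarith)) (Nat.cast_nonneg _))
  N1 i := le_trans (h.N1 i) (mul_le_mul_of_nonneg_left
    (Real.rpow_le_rpow_of_exponent_le hD hxy) (Nat.cast_nonneg _))
  N2 := h.N2
  u1 := h.u1
  u2 := h.u2
  T1 := le_trans (Real.rpow_le_rpow_of_exponent_le hD (by linarith)) h.T1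

private theorem igMonoLp {m : ℕ} {S : Sys m} {c : Fin m → ℝ} {N : ℕ} {x y : ℝ} {lam : ℕ}
    (hxy : x ≤ y) (hD : 1 ≤ S.D) (h : IG S c N x lam) : IG S c N y lam where
  good := goodMonoLp hxy hD h.good
  Q3 := le_trans h.Q3 (Real.rpow_le_rpow_of_exponent_le hD (by linarith))
  lam1 := h.lam1
  rho := h.rho
  Pint := h.Pint
  prime := h.prime

private theorem admMonoLp {N : ℕ} {B B' X : ℝ} (hX : 0 < X) (hB : B ≤ B') {f : ZMod N → ℂ}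
    (h : Adm B X f) : Adm B' X f where
  bdd := h.bdd
  tv x l := le_trans (h.tv x l) (mul_le_mul_of_nonneg_right hB (by positivity))

private theorem apb_blk {N p : ℕ} [NeZero N] [NeZero p] {Q : ℕ} (hN : N = Q * p) (q X : ℕ)
    (r : ZMod p) (cc : ℕ → ℕ → ℂ) (φ : ℕ → ℕ → ℝ) (e : ℕ) (he : e < Q) :
    (fun x : ZMod N => apb Q q X r cc φ ((Q * (x.val / Q) + e : ℕ) : ZMod N)) =
      blk Q fun y : ZMod p => bphase X r (cc e) (φ e) (y * (q : ZMod p)⁻¹) := by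
  funext x
  have hQ : 0 < Q := by omega
  have h1 : x.val < Q * p := by
    have := ZMod.val_lt x
    omega
  have h2 : x.val / Q < p := Nat.div_lt_of_lt_mul h1
  have h3 : Q * (x.val / Q) + e < N := by
    calc Q * (x.val / Q) + e < Q * (x.val / Q) + Q := by omega
      _ = Q * (x.val / Q + 1) := by ring
      _ ≤ Q * p := Nat.mul_le_mul_left _ h2
      _ = N := hN.symm
  have h4 : ((Q * (x.val / Q) + e : ℕ) : ZMod N).val = Q * (x.val / Q) + e :=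
    ZMod.val_cast_of_lt h3
  have h5 : (Q * (x.val / Q) + e) % Q = e := by
    rw [Nat.mul_add_mod, Nat.mod_eq_of_lt he]
  have h6 : (Q * (x.val / Q) + e) / Q = x.val / Q := by
    rw [Nat.mul_add_div hQ, Nat.div_eq_of_lt he, add_zero]
  unfold apb blk
  rw [h4, h5, h6]

private theorem bphase_normLp {N : ℕ} (X : ℕ) (r : ZMod N) (cc : ℕ → ℂ) (φ : ℕ → ℝ)
    (hcc : ∀ j, ‖cc j‖ ≤ 1) (x : ZMod N) : ‖bphase X r cc φ x‖ ≤ 1 := by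
  unfold bphase e
  rw [norm_mul]
  have : ‖Complex.exp (2 * Real.pi * ((φ ((x - r).val / X) * ((x - r).val : ℝ) : ℝ) : ℂ) *
      Complex.I)‖ = 1 := by
    rw [show (2 : ℂ) * Real.pi * ((φ ((x - r).val / X) * ((x - r).val : ℝ) : ℝ) : ℂ) * Complex.I =
      ((2 * Real.pi * (φ ((x - r).val / X) * ((x - r).val : ℝ)) : ℝ) : ℂ) * Complex.I by
        push_cast; ring]
    exact Complex.norm_exp_ofReal_mul_I _
  rw [this, mul_one]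
  exact hcc _

/-- Module A26 from the conclusions of A22, A24 and A25. -/
theorem lp_arith_core (m : ℕ) (c : Fin (m + 1) → ℝ) (hc : Ex c) (d : ℕ)
    (hd : c (Fin.last m) = d) (s : ℝ) (hs : s ≤ 1) (hB : BcC m)
    (hA : ∀ ε : ℝ, 0 < ε → AlC m c s ε) (hL : LocC m c s) :
    ∃ x0 : ℝ, 0 < x0 ∧ ∃ C : ℕ, ∃ σ : ℝ, 0 < σ ∧ ∃ D0 : ℝ,
    ∀ (S : Sys (m + 1)) (N : ℕ) [NeZero N] (lam : ℕ), D0 ≤ S.D → IG S c N x0 lam →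
    ∀ δ : ℝ, S.D ^ (-σ) ≤ δ → δ ≤ 1 / 2 → (lam : ℝ) ≤ δ⁻¹ →
    ∀ (p : ℕ) [NeZero p], p.Prime → N = S.Q * p → ∀ q : ℕ, 1 ≤ q → (q : ℝ) ≤ δ⁻¹ →
    ∀ X : ℕ, 1 ≤ X → S.D ^ (s - σ) ≤ (X : ℝ) → (X : ℝ) * δ⁻¹ ^ C ≤ S.D ^ s →
    ∀ (f0 : ZMod N → ℂ) (f : Fin m → ZMod N → ℂ), Adm δ⁻¹ S.Q f0 → (∀ i, Adm δ⁻¹ S.Q (f i)) →
    ∀ (r : ZMod p) (cc : ℕ → ℕ → ℂ) (φ : ℕ → ℕ → ℝ), (∀ e j, ‖cc e j‖ ≤ 1) →
    (∀ e j, cc e j ≠ 0 → ∀ q' : ℕ, 1 ≤ q' → (q' : ℝ) ≤ δ⁻¹ ^ C →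
      δ⁻¹ ^ C / X < dint (q' * φ e j)) →
    ‖form S c 1 f0 (Fin.snoc (α := fun _ => ZMod N → ℂ) f (apb S.Q q X r cc φ))‖ < δ := by
  obtain ⟨ε0, hε0, hL⟩ := hL
  set ε : ℝ := min ε0 (1 / 4) with hεdef
  have hε : 0 < ε := lt_min hε0 (by norm_num)
  have hε1 : ε ≤ ε0 := min_le_left _ _
  have hε2 : ε ≤ 1 / 4 := min_le_right _ _
  obtain ⟨CB, hB⟩ := hB
  obtain ⟨xA, hxA, CA, σA, hσA, DA, hA⟩ := hA ε hε
  obtain ⟨xL, hxL, CL, σL, hσL, DL, hL⟩ := hL ε hε hε1 CA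
  set k1 : ℕ := CB + 3 with hk1
  have hk1pos : (0 : ℝ) < k1 := by rw [hk1]; positivity
  have hk1one : (1 : ℝ) ≤ k1 := by rw [hk1]; push_cast; linarith [Nat.cast_nonneg (α := ℝ) CB]
  set σ : ℝ := min (min σA σL) 1 / k1 with hσdef
  have hmpos : 0 < min (min σA σL) 1 := lt_min (lt_min hσA hσL) one_pos
  have hσ : 0 < σ := div_pos hmpos hk1pos
  have hσk : σ * k1 = min (min σA σL) 1 := div_mul_cancel₀ _ hk1pos.ne'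
  have hσkA : σ * k1 ≤ σA := by rw [hσk]; exact le_trans (min_le_left _ _) (min_le_left _ _)
  have hσkL : σ * k1 ≤ σL := by rw [hσk]; exact le_trans (min_le_left _ _) (min_le_right _ _)
  have hσk1 : σ * k1 ≤ 1 := by rw [hσk]; exact min_le_right _ _
  have hσle : σ ≤ σ * k1 := le_mul_of_one_le_right hσ.le hk1one
  set C : ℕ := k1 * (CL + 4) with hCdef
  refine ⟨min (min xA xL) (1 / 4), lt_min (lt_min hxA hxL) (by norm_num), C, σ, hσ,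
    max (max DA DL) 1, ?_⟩
  intro S N _ lam hD hG δ hδ hδ2 hlam p _ hp hN q hq hqδ X hX hX1 hX2 f0 f hf0 hf r cc φ hcc hφ
  have hD1 : 1 ≤ S.D := le_trans (le_max_right _ _) hD
  have hDA : DA ≤ S.D := le_trans (le_trans (le_max_left _ _) (le_max_left _ _)) hD
  have hDL : DL ≤ S.D := le_trans (le_trans (le_max_right _ _) (le_max_left _ _)) hD
  have hDpos : 0 < S.D := lt_of_lt_of_le one_pos hD1
  have hGA : IG S c N xA lam := igMonoLp (le_trans (min_le_left _ _) (min_le_left _ _)) hD1 hG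
  have hGL : IG S c N xL lam := igMonoLp (le_trans (min_le_left _ _) (min_le_right _ _)) hD1 hG
  have hGs : IG S c N (1 / 4) lam := igMonoLp (min_le_right _ _) hD1 hG
  have hδpos : 0 < δ := lt_of_lt_of_le (Real.rpow_pos_of_pos hDpos _) hδ
  have hδ1 : δ ≤ 1 := by linarith
  have hi1 : 1 ≤ δ⁻¹ := (one_le_inv₀ hδpos).2 hδ1
  have hi0 : 0 < δ⁻¹ := inv_pos.2 hδpos
  have hQ1 : (1 : ℝ) ≤ S.Q := le_trans (Real.one_le_rpow hD1 (by norm_num)) hG.good.Q1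
  have hQpos : (0 : ℝ) < S.Q := by linarith
  have hXpos : (0 : ℝ) < X := by exact_mod_cast hX
  -- the smaller `δ1 = δ ^ k1`
  have hi2 : (δ ^ k1)⁻¹ = δ⁻¹ ^ k1 := (inv_pow δ k1).symm
  have hδk : S.D ^ (-(σ * k1)) ≤ δ ^ k1 := by
    have h1 : S.D ^ (-(σ * k1)) = (S.D ^ (-σ)) ^ k1 := by
      rw [← Real.rpow_natCast, ← Real.rpow_mul hDpos.le]
      congr 1
      ring
    rw [h1]
    exact pow_le_pow_left₀ (Real.rpow_nonneg hDpos.le _) hδ _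
  have hδA : S.D ^ (-σA) ≤ δ ^ k1 := le_trans (Real.rpow_le_rpow_of_exponent_le hD1
    (neg_le_neg hσkA)) hδk
  have hδL : S.D ^ (-σL) ≤ δ ^ k1 := le_trans (Real.rpow_le_rpow_of_exponent_le hD1
    (neg_le_neg hσkL)) hδk
  have hδk2 : δ ^ k1 ≤ 1 / 2 := le_trans (pow_le_of_le_one hδpos.le hδ1 (by omega)) hδ2
  have hik : δ⁻¹ ≤ (δ ^ k1)⁻¹ := by
    rw [hi2]
    exact le_self_pow₀ hi1 (by omega)
  have hik3 : δ⁻¹ ^ 3 ≤ (δ ^ k1)⁻¹ := by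
    rw [hi2]
    exact pow_le_pow_right₀ hi1 (by omega)
  -- the choice of `q0`
  have hX3 : (X : ℝ) * q ≤ S.D := by
    have h1 : (X : ℝ) * q ≤ X * δ⁻¹ := mul_le_mul_of_nonneg_left hqδ hXpos.le
    have h2 : (X : ℝ) * δ⁻¹ ≤ X * δ⁻¹ ^ C :=
      mul_le_mul_of_nonneg_left (le_self_pow₀ hi1 (by rw [hCdef]; positivity)) hXpos.le
    have h3 : S.D ^ s ≤ S.D ^ (1 : ℝ) := Real.rpow_le_rpow_of_exponent_le hD1 hs
    rw [Real.rpow_one] at h3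
    linarith
  have hqpos : (0 : ℝ) < q := by exact_mod_cast hq
  have hP : (X : ℝ) * (S.Q * q) ≤ S.P (Fin.last m) * S.D ^ (-ε) := by
    have h1 := hGs.good.P1 (Fin.last m)
    have h2 : (2 : ℝ) ≤ c (Fin.last m) := hc.two _
    have h3 : (S.Q : ℝ) * S.D
        ≤ (S.Q * S.D ^ (c (Fin.last m) - 1 / 4)) * S.D ^ (-ε) := by
      rw [mul_assoc, ← Real.rpow_add hDpos]
      refine mul_le_mul_of_nonneg_left ?_ (Nat.cast_nonneg _)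
      calc S.D = S.D ^ (1 : ℝ) := (Real.rpow_one _).symm
        _ ≤ _ := Real.rpow_le_rpow_of_exponent_le hD1 (by linarith)
    calc (X : ℝ) * (S.Q * q) = S.Q * (X * q) := by ring
      _ ≤ S.Q * S.D := mul_le_mul_of_nonneg_left hX3 hQpos.le
      _ ≤ _ := h3
      _ ≤ _ := mul_le_mul_of_nonneg_right h1 (Real.rpow_nonneg hDpos.le _)
  have hZpos : (0 : ℝ) < X * (S.Q * q) := by positivity
  set y : ℝ := S.P (Fin.last m) * S.D ^ (-ε) / (X * (S.Q * q)) with hy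
  have hy1 : 1 ≤ y := (one_le_div hZpos).2 hP
  have hyX : y * (X * (S.Q * q)) = S.P (Fin.last m) * S.D ^ (-ε) := div_mul_cancel₀ _ hZpos.ne'
  have hq1 : 1 ≤ ⌊y⌋₊ := Nat.le_floor (by exact_mod_cast hy1)
  have hq2 : (⌊y⌋₊ : ℝ) ≤ y := Nat.floor_le (by linarith)
  have hq3 : y / 2 ≤ ⌊y⌋₊ := by
    have h1 : y < ⌊y⌋₊ + 1 := Nat.lt_floor_add_one y
    have h2 : (1 : ℝ) ≤ ⌊y⌋₊ := by exact_mod_cast hq1
    linarith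
  have hXq1 : (X : ℝ) * ⌊y⌋₊ * (S.Q * q) ≤ S.P (Fin.last m) * S.D ^ (-ε) := by
    rw [← hyX]
    calc (X : ℝ) * ⌊y⌋₊ * (S.Q * q) = ⌊y⌋₊ * (X * (S.Q * q)) := by ring
      _ ≤ _ := mul_le_mul_of_nonneg_right hq2 hZpos.le
  have hXq2 : S.P (Fin.last m) * S.D ^ (-ε) / 2 ≤ (X : ℝ) * ⌊y⌋₊ * (S.Q * q) := by
    rw [← hyX]
    calc y * (X * (S.Q * q)) / 2 = y / 2 * (X * (S.Q * q)) := by ring
      _ ≤ ⌊y⌋₊ * (X * (S.Q * q)) := mul_le_mul_of_nonneg_right hq3 hZpos.le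
      _ = _ := by ring
  by_contra hcon
  -- reduction to block-constant functions
  have hCB : δ⁻¹ ^ CB ≤ (S.Q : ℝ) := by
    have h1 : δ⁻¹ ^ CB ≤ δ⁻¹ ^ k1 := pow_le_pow_right₀ hi1 (by omega)
    have h2 : δ⁻¹ ^ k1 ≤ S.D ^ (σ * k1) := by
      rw [← hi2]
      rw [Real.rpow_neg hDpos.le] at hδk
      exact (inv_le_comm₀ (Real.rpow_pos_of_pos hDpos _) (pow_pos hδpos _)).1 hδk
    have h3 : S.D ^ (σ * k1) ≤ S.D ^ (2 : ℝ) :=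
      Real.rpow_le_rpow_of_exponent_le hD1 (by linarith)
    exact h1.trans (h2.trans (h3.trans hG.good.Q1))
  obtain ⟨e0, he0, f0', hf0', hf0''⟩ := hB c d hd S N lam _ hD1 hG δ hδpos hδ2 hCB f0 f
    (apb S.Q q X r cc φ) hf0 hf (fun x => by
      unfold apb
      exact bphase_normLp X r _ _ (fun j => hcc _ j) _) (not_lt.1 hcon)
  rw [apb_blk hN q X r cc φ e0 he0] at hf0''
  have hlow : δ ^ k1 ≤ δ ^ CB := pow_le_pow_of_le_one hδpos.le hδ1 (by omega)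
  obtain ⟨cc', θ, h1, h2, h3⟩ := hA S N lam hDA hGA (δ ^ k1) hδA hδk2 (hlam.trans hik) p hp hN q
    hq (hqδ.trans hik) X hX (le_trans (Real.rpow_le_rpow_of_exponent_le hD1 (by linarith)) hX1)
    ⌊y⌋₊ hq1 hXq1 f0' f (admMonoLp hQpos hik3 hf0') (fun i => admMonoLp hQpos hik (hf i))
    r (cc e0) (φ e0) (hcc e0) (hlow.trans hf0'')
  have hcc' : ∀ j, ‖cc' j‖ ≤ 1 := by
    intro j
    rcases h1 j with h | h
    · rw [h]; exact hcc _ j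
    · rw [h, norm_zero]; exact zero_le_one
  have hC1 : (δ ^ k1)⁻¹ ^ CL ≤ δ⁻¹ ^ C := by
    rw [hi2, ← pow_mul]
    exact pow_le_pow_right₀ hi1 (Nat.mul_le_mul_left _ (by omega))
  have hC2 : (X : ℝ) * (δ ^ k1)⁻¹ ^ 4 ≤ S.D ^ s := by
    refine le_trans (mul_le_mul_of_nonneg_left ?_ hXpos.le) hX2
    rw [hi2, ← pow_mul]
    exact pow_le_pow_right₀ hi1 (Nat.mul_le_mul_left _ (by omega))
  obtain ⟨j, q', hj1, hj2, hj3, hj4⟩ := hL S N lam hDL hGL (δ ^ k1) hδL hδk2 (hlam.trans hik) p hp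
    hN q hq (hqδ.trans hik) X hX
    (le_trans (Real.rpow_le_rpow_of_exponent_le hD1 (by linarith)) hX1) hC2
    ⌊y⌋₊ hq1 hXq2 hXq1 f0' f (admMonoLp hQpos hik3 hf0') (fun i => admMonoLp hQpos hik (hf i))
    r cc' (φ e0) θ hcc' h2 h3
  have hj5 : cc e0 j ≠ 0 := by
    rcases h1 j with h | h
    · rwa [h] at hj1
    · exact absurd h hj1
  have h4 := hφ e0 j hj5 q' hj2 (hj3.trans hC1)
  have h5 : (δ ^ k1)⁻¹ ^ CL / X ≤ δ⁻¹ ^ C / (X : ℝ) := div_le_div_of_nonneg_right hC1 hXpos.le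
  exact absurd (hj4.trans h5) (not_le.2 h4)

end

end Pool.Agent.Helper67.NX2
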